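import Mathlib

/-!
Definitions for piercing problems on families of planar regions. The plane is `ℝ × ℝ` with its
usual topology.
-/

namespace Pool.Agent.H98Z.PD

open Set

/-- A Jordan curve: the image of the unit circle under a continuous injective map to the plane. -/
def IsJordanCurve (C : Set (ℝ × ℝ)) : Prop :=
  ∃ γ : Circle → ℝ × ℝ, Continuous γ ∧ Function.Injective γ ∧ range γ = C

/-- A region: a connected compact subset of the plane, equal to the closure of its interior,
whose boundary is the union of finitely many pairwise disjoint Jordan curves. -/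
def IsRegion (F : Set (ℝ × ℝ)) : Prop :=
  IsConnected F ∧ IsCompact F ∧ closure (interior F) = F ∧
    ∃ 𝒞 : Set (Set (ℝ × ℝ)), 𝒞.Finite ∧ (∀ C ∈ 𝒞, IsJordanCurve C) ∧
      𝒞.PairwiseDisjoint id ∧ frontier F = ⋃₀ 𝒞

/-- A non-piercing family of regions: the boundaries of two different members meet in finitely
many points (general position) and the difference of two different members is connected. -/
def IsNonPiercingFamily (𝓕 : Set (Set (ℝ × ℝ))) : Prop :=
  (∀ F ∈ 𝓕, IsRegion F) ∧
    ∀ F ∈ 𝓕, ∀ G ∈ 𝓕, F ≠ G → (frontier F ∩ frontier G).Finite ∧ IsConnected (F \ G)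

/-- A pseudo-disk family: simply connected regions such that the boundaries of two different
members meet in at most two points. -/
def IsPseudoDiskFamily (𝓕 : Set (Set (ℝ × ℝ))) : Prop :=
  (∀ F ∈ 𝓕, IsRegion F ∧ IsSimplyConnected F) ∧
    ∀ F ∈ 𝓕, ∀ G ∈ 𝓕, F ≠ G → (frontier F ∩ frontier G).encard ≤ 2

/-- Any two members of the family have a common point. -/
def PairwiseIntersecting (𝓕 : Set (Set (ℝ × ℝ))) : Prop :=
  ∀ F ∈ 𝓕, ∀ G ∈ 𝓕, (F ∩ G).Nonempty

/-- The point set `P` pierces the family: it meets every member. -/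
def Pierces (P : Set (ℝ × ℝ)) (𝓕 : Set (Set (ℝ × ℝ))) : Prop :=
  ∀ F ∈ 𝓕, (P ∩ F).Nonempty

end Pool.Agent.H98Z.PD
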