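import Pool.Agent.H98Z.PD.Top

namespace Pool.Agent.H98Z.PD

open Set

/-- piecewise linear interpolation of the values `A 0, …, A T` -/
noncomputable def pl (A : ℕ → ℕ) (T : ℕ) (x : ℝ) : ℝ :=
  A 0 + ∑ t ∈ Finset.range T, ((A (t + 1) : ℝ) - A t) * max 0 (min 1 (x - t))

lemma pl_continuous (A : ℕ → ℕ) (T : ℕ) : Continuous (pl A T) := by
  unfold pl
  fun_prop

lemma pl_aux (A : ℕ → ℕ) (t : ℕ) (x : ℝ) (h1 : (t : ℝ) ≤ x) (h2 : x ≤ t + 1) (T : ℕ) :
    pl A T x = if T ≤ t then (A T : ℝ) else A t + (x - t) * ((A (t + 1) : ℝ) - A t) := by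
  induction T with
  | zero => simp [pl]
  | succ T ih =>
    have e : pl A (T + 1) x = pl A T x + ((A (T + 1) : ℝ) - A T) * max 0 (min 1 (x - T)) := by
      simp only [pl, Finset.sum_range_succ]
      ring
    rw [e, ih]
    rcases lt_trichotomy T t with h | h | h
    · have h' : ((T : ℝ) + 1) ≤ t := by exact_mod_cast h
      rw [if_pos h.le, if_pos (Nat.succ_le_of_lt h), min_eq_left (by linarith),
        max_eq_right zero_le_one]
      ring
    · subst h
      rw [if_pos le_rfl, if_neg (by omega), min_eq_right (by linarith),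
        max_eq_right (by linarith)]
      ring
    · have h' : ((t : ℝ) + 1) ≤ T := by exact_mod_cast h
      rw [if_neg (by omega), if_neg (by omega), min_eq_right (by linarith),
        max_eq_left (by linarith)]
      ring

lemma pl_nat (A : ℕ → ℕ) {T t : ℕ} (h : t ≤ T) : pl A T t = A t := by
  rw [pl_aux A t t le_rfl (by linarith) T]
  split_ifs with h'
  · rw [le_antisymm h' h]
  · ring

lemma locate {T : ℕ} {x : ℝ} (h0 : 0 ≤ x) (hT : x ≤ T) :
    ∃ (t d : ℕ) (s : ℝ), d ≤ 1 ∧ t + d ≤ T ∧ 0 ≤ s ∧ s ≤ 1 ∧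
      (∀ A : ℕ → ℕ, pl A T x = (1 - s) * A t + s * A (t + d)) ∧
      (∀ m : ℕ, (m : ℝ) ≤ x → m ≤ t) ∧ (∀ m : ℕ, x ≤ m → t + d ≤ m) ∧
      ((d = 0 ∧ x = t) ∨ (d = 1 ∧ x = t + s ∧ ∀ m : ℕ, x ≠ m)) := by
  by_cases hx : ∃ m : ℕ, x = m
  · obtain ⟨m, rfl⟩ := hx
    have hm : m ≤ T := by exact_mod_cast hT
    refine ⟨m, 0, 0, zero_le_one, hm, le_rfl, zero_le_one, fun A => ?_, fun k hk => ?_,
      fun k hk => ?_, Or.inl ⟨rfl, rfl⟩⟩
    · rw [pl_nat A hm]; simp
    · exact_mod_cast hk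
    · exact_mod_cast hk
  · push Not at hx
    have h1 : (⌊x⌋₊ : ℝ) ≤ x := Nat.floor_le h0
    have h2 : x < ⌊x⌋₊ + 1 := Nat.lt_floor_add_one x
    have h3 : (⌊x⌋₊ : ℝ) < x := lt_of_le_of_ne h1 (Ne.symm (hx _))
    have h4 : ∀ m : ℕ, x ≤ m → ⌊x⌋₊ + 1 ≤ m := fun m hm => by
      have : (⌊x⌋₊ : ℝ) < m := h3.trans_le hm
      exact_mod_cast this
    refine ⟨⌊x⌋₊, 1, x - ⌊x⌋₊, le_rfl, h4 T hT, by linarith, by linarith, fun A => ?_,
      fun k hk => Nat.le_floor hk, h4, Or.inr ⟨rfl, by ring, hx⟩⟩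
    rw [pl_aux A ⌊x⌋₊ x h1 h2.le T, if_neg (by have := h4 T hT; omega)]
    ring

/-- combinatorial data of a wiring diagram -/
structure Data where
  n : ℕ
  T : ℕ
  m : ℕ
  l : ℕ → ℕ
  r : ℕ → ℕ
  A : ℕ → ℕ → ℕ
  B : ℕ → ℕ → ℕ
  C : ℕ → ℕ

namespace Data

variable (D : Data)

/-- the wire `α` of region `i` -/
def W (i : ℕ) (α : Bool) (t : ℕ) : ℕ := if α then D.B i t else D.A i t

/-- the region number `i` -/
noncomputable def F (i : ℕ) : Set (ℝ × ℝ) :=
  strip (D.l i) (D.r i) (pl (D.A i) D.T) (pl (D.B i) D.T)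

/-- two wires cross between the times `t` and `t + 1` -/
def cross (i j : ℕ) (q : ℕ × Bool × Bool) : Bool :=
  decide (D.l i ≤ q.1) && decide (q.1 + 1 ≤ D.r i) && decide (D.l j ≤ q.1) &&
    decide (q.1 + 1 ≤ D.r j) &&
    (decide (D.W i q.2.1 q.1 < D.W j q.2.2 q.1) !=
      decide (D.W i q.2.1 (q.1 + 1) < D.W j q.2.2 (q.1 + 1)))

/-- all candidates for crossings -/
def cands (T : ℕ) : List (ℕ × Bool × Bool) :=
  (List.range T).flatMap fun t =>
    [(t, false, false), (t, false, true), (t, true, false), (t, true, true)]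

lemma mem_cands {T t : ℕ} (h : t < T) (α β : Bool) : (t, α, β) ∈ cands T := by
  simp only [cands, List.mem_flatMap, List.mem_range]
  exact ⟨t, h, by cases α <;> cases β <;> simp⟩

/-- the properties of the data that are checked by computation -/
structure Good : Prop where
  mpos : 0 < D.m
  lr : ∀ i < D.n, D.l i < D.r i ∧ D.r i ≤ D.T
  ab : ∀ i < D.n, ∀ t, D.l i ≤ t → t ≤ D.r i → D.A i t < D.B i t
  cell : ∀ i < D.n, ∀ t d, d ≤ 1 → D.l i ≤ t → t + d ≤ D.r i → ∃ k < D.m, ∀ j < D.n,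
    D.l j ≤ t → t + d ≤ D.r j → ¬ (D.A i t < D.A j t ∧ D.A i (t + d) < D.A j (t + d)) →
    ¬ (D.B j t < D.A i t ∧ D.B j (t + d) < D.A i (t + d)) → (D.C k).testBit j = true
  nocover : ∀ S : Finset ℕ, (∀ k ∈ S, k < D.m) → S.card ≤ 4 →
    ∃ j < D.n, ∀ k ∈ S, (D.C k).testBit j = false
  meet : ∀ i < D.n, ∀ j < D.n, ∃ t, D.l i ≤ t ∧ t ≤ D.r i ∧ D.l j ≤ t ∧ t ≤ D.r j ∧
    D.A i t ≤ D.B j t ∧ D.A j t ≤ D.B i t
  inn : ∀ i < D.n, ∀ j < D.n, i ≠ j → ∃ t, D.l i ≤ t ∧ t ≤ D.r i ∧ D.l j < t ∧ t < D.r j ∧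
    ((D.A j t < D.A i t ∧ D.A i t < D.B j t) ∨ (D.A j t < D.B i t ∧ D.B i t < D.B j t))
  out : ∀ i < D.n, ∀ j < D.n, i ≠ j → ∃ t, D.l i ≤ t ∧ t ≤ D.r i ∧
    (t < D.l j ∨ D.r j < t ∨ D.A i t < D.A j t ∨ D.B j t < D.B i t)
  int : ∀ i < D.n, ∀ j < D.n, i ≠ j → ∀ t, D.l i ≤ t → t ≤ D.r i → D.l j ≤ t → t ≤ D.r j →
    D.A i t ≠ D.A j t ∧ D.A i t ≠ D.B j t ∧ D.B i t ≠ D.A j t ∧ D.B i t ≠ D.B j t ∧
    ((t = D.l i ∨ t = D.r i) → (D.B i t < D.A j t ∨ D.B j t < D.A i t ∨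
      (D.A j t < D.A i t ∧ D.B i t < D.B j t ∧ t ≠ D.l j ∧ t ≠ D.r j)))
  crs : ∀ i < D.n, ∀ j < D.n, i ≠ j → ((cands D.T).filter (D.cross i j)).length ≤ 2

variable {D}

lemma comb_lt {s : ℝ} (h0 : 0 ≤ s) (h1 : s ≤ 1) {a b c d : ℕ} (h : a < b) (h' : c < d) :
    (1 - s) * (a : ℝ) + s * c < (1 - s) * b + s * d := by
  have e1 : (a : ℝ) + 1 ≤ b := by exact_mod_cast h
  have e2 : (c : ℝ) + 1 ≤ d := by exact_mod_cast h'
  nlinarith

lemma Good.pl_lt (h : D.Good) {i : ℕ} (hi : i < D.n) {x : ℝ} (h1 : (D.l i : ℝ) ≤ x)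
    (h2 : x ≤ D.r i) : pl (D.A i) D.T x < pl (D.B i) D.T x := by
  have hT : (D.r i : ℝ) ≤ D.T := by exact_mod_cast (h.lr i hi).2
  obtain ⟨t, d, s, hd, htd, hs0, hs1, hpl, hl, hr, -⟩ :=
    locate (T := D.T) ((Nat.cast_nonneg _).trans h1) (h2.trans hT)
  have := hl _ h1
  have := hr _ h2
  rw [hpl, hpl]
  exact comb_lt hs0 hs1 (h.ab i hi t (by omega) (by omega)) (h.ab i hi _ (by omega) (by omega))

lemma Good.isDisk (h : D.Good) {i : ℕ} (hi : i < D.n) : IsDisk (D.F i) :=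
  strip_isDisk (pl_continuous _ _) (pl_continuous _ _) (by exact_mod_cast (h.lr i hi).1)
    fun _ h1 h2 => h.pl_lt hi h1 h2

lemma Good.mem_nat (h : D.Good) {i : ℕ} (hi : i < D.n) {t : ℕ} {y : ℝ} :
    ((t : ℝ), y) ∈ D.F i ↔ D.l i ≤ t ∧ t ≤ D.r i ∧ (D.A i t : ℝ) ≤ y ∧ y ≤ D.B i t := by
  have hT := (h.lr i hi).2
  simp only [F, strip, mem_ofPred_eq, Nat.cast_le]
  constructor
  · rintro ⟨h1, h2, h3, h4⟩
    rw [pl_nat _ (h2.trans hT)] at h3 h4
    exact ⟨h1, h2, h3, h4⟩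
  · rintro ⟨h1, h2, h3, h4⟩
    rw [pl_nat _ (h2.trans hT), pl_nat _ (h2.trans hT)]
    exact ⟨h1, h2, h3, h4⟩

lemma Good.inter (h : D.Good) {i j : ℕ} (hi : i < D.n) (hj : j < D.n) :
    (D.F i ∩ D.F j).Nonempty := by
  obtain ⟨t, h1, h2, h3, h4, h5, h6⟩ := h.meet i hi j hj
  have h7 := h.ab i hi t h1 h2
  have h8 := h.ab j hj t h3 h4
  refine ⟨((t : ℝ), ((max (D.A i t) (D.A j t) : ℕ) : ℝ)), (h.mem_nat hi).2 ⟨h1, h2, ?_, ?_⟩,
    (h.mem_nat hj).2 ⟨h3, h4, ?_, ?_⟩⟩ <;> norm_cast <;> omega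

lemma Good.diff_nonempty (h : D.Good) {i j : ℕ} (hi : i < D.n) (hj : j < D.n) (hij : i ≠ j) :
    (D.F i \ D.F j).Nonempty := by
  obtain ⟨t, h1, h2, h3⟩ := h.out i hi j hj hij
  have h7 := h.ab i hi t h1 h2
  by_cases h4 : D.B j t < D.B i t
  · refine ⟨((t : ℝ), (D.B i t : ℝ)), (h.mem_nat hi).2 ⟨h1, h2, ?_, le_rfl⟩, fun hc => ?_⟩
    · norm_cast; omega
    · have := ((h.mem_nat hj).1 hc).2.2.2
      norm_cast at this; omega
  · refine ⟨((t : ℝ), (D.A i t : ℝ)), (h.mem_nat hi).2 ⟨h1, h2, le_rfl, ?_⟩, fun hc => ?_⟩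
    · norm_cast; omega
    · obtain ⟨a1, a2, a3, -⟩ := (h.mem_nat hj).1 hc
      norm_cast at a3; omega

lemma Good.exists_inner (h : D.Good) {i j : ℕ} (hi : i < D.n) (hj : j < D.n) (hij : i ≠ j) :
    ∃ v ∈ frontier (D.F i), v ∈ interior (D.F j) := by
  obtain ⟨t, h1, h2, h3, h4, h5⟩ := h.inn i hi j hj hij
  have hTi := h2.trans (h.lr i hi).2
  have h1' : (D.l i : ℝ) ≤ t := by exact_mod_cast h1
  have h2' : (t : ℝ) ≤ D.r i := by exact_mod_cast h2
  have h3' : (D.l j : ℝ) < t := by exact_mod_cast h3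
  have h4' : (t : ℝ) < D.r j := by exact_mod_cast h4
  have hlt := (h.pl_lt hi h1' h2').le
  rcases h5 with h5 | h5
  · refine ⟨_, lower_mem_frontier (pl_continuous _ _) (pl_continuous _ _) h1' h2' hlt,
      mem_interior_strip (pl_continuous _ _) (pl_continuous _ _) h3' h4' ?_ ?_⟩ <;>
    simp only [pl_nat _ hTi] <;> norm_cast <;> omega
  · refine ⟨_, upper_mem_frontier (pl_continuous _ _) (pl_continuous _ _) h1' h2' hlt,
      mem_interior_strip (pl_continuous _ _) (pl_continuous _ _) h3' h4' ?_ ?_⟩ <;>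
    simp only [pl_nat _ hTi] <;> norm_cast <;> omega

/-- the crossing point of two wires -/
noncomputable def pt (D : Data) (i j : ℕ) (q : ℕ × Bool × Bool) : ℝ × ℝ :=
  let s : ℝ := ((D.W j q.2.2 q.1 : ℝ) - D.W i q.2.1 q.1) /
    (((D.W i q.2.1 (q.1 + 1) : ℝ) - D.W i q.2.1 q.1) -
      ((D.W j q.2.2 (q.1 + 1) : ℝ) - D.W j q.2.2 q.1))
  (q.1 + s, (1 - s) * D.W i q.2.1 q.1 + s * D.W i q.2.1 (q.1 + 1))

lemma Good.W_ne (h : D.Good) {i j : ℕ} (hi : i < D.n) (hj : j < D.n) (hij : i ≠ j) {t : ℕ}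
    (h1 : D.l i ≤ t) (h2 : t ≤ D.r i) (h3 : D.l j ≤ t) (h4 : t ≤ D.r j) (α β : Bool) :
    D.W i α t ≠ D.W j β t := by
  obtain ⟨a1, a2, a3, a4, -⟩ := h.int i hi j hj hij t h1 h2 h3 h4
  cases α <;> cases β <;> simpa [W]

lemma Good.frontier_inter (h : D.Good) {i j : ℕ} (hi : i < D.n) (hj : j < D.n) (hij : i ≠ j) :
    (frontier (D.F i) ∩ frontier (D.F j)).encard ≤ 2 := by
  classical
  have hsub : frontier (D.F i) ∩ frontier (D.F j) ⊆
      ((((cands D.T).filter (D.cross i j)).map (D.pt i j)).toFinset : Set (ℝ × ℝ)) := by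
    rintro ⟨x, y⟩ ⟨hpi, hpj⟩
    obtain ⟨⟨i1, i2, i3, i4⟩, i5⟩ := frontier_strip (pl_continuous _ _) (pl_continuous _ _) hpi
    obtain ⟨⟨j1, j2, j3, j4⟩, j5⟩ := frontier_strip (pl_continuous _ _) (pl_continuous _ _) hpj
    simp only at i1 i2 i3 i4 i5 j1 j2 j3 j4 j5
    have hT : (D.r i : ℝ) ≤ D.T := by exact_mod_cast (h.lr i hi).2
    obtain ⟨t, d, s, hd, htd, hs0, hs1, hpl, hl, hr, hcase⟩ :=
      locate (T := D.T) ((Nat.cast_nonneg _).trans i1) (i2.trans hT)
    have li := hl _ i1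
    have ri := hr _ i2
    have lj := hl _ j1
    have rj := hr _ j2
    rcases hcase with ⟨rfl, rfl⟩ | ⟨rfl, hx, hxm⟩
    · exfalso
      simp only [add_zero] at *
      rw [pl_nat _ htd] at i3 i4 j3 j4
      simp only [pl_nat _ htd, Nat.cast_inj] at i5 j5
      obtain ⟨a1, a2, a3, a4, a5⟩ := h.int i hi j hj hij t li ri lj rj
      obtain ⟨-, -, -, -, b5⟩ := h.int j hj i hi hij.symm t lj rj li ri
      have c1 : D.A i t ≤ D.B j t := by exact_mod_cast i3.trans j4
      have c2 : D.A j t ≤ D.B i t := by exact_mod_cast j3.trans i4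
      by_cases ei : t = D.l i ∨ t = D.r i
      · rcases a5 ei with a | a | ⟨a6, a7, a8, a9⟩
        · omega
        · omega
        · have a6' : (D.A j t : ℝ) < D.A i t := by exact_mod_cast a6
          have a7' : (D.B i t : ℝ) < D.B j t := by exact_mod_cast a7
          rcases j5 with e | e | e | e
          · exact a8 e
          · exact a9 e
          · linarith
          · linarith
      by_cases ej : t = D.l j ∨ t = D.r j
      · rcases b5 ej with a | a | ⟨a6, a7, a8, a9⟩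
        · omega
        · omega
        · have a6' : (D.A i t : ℝ) < D.A j t := by exact_mod_cast a6
          have a7' : (D.B j t : ℝ) < D.B i t := by exact_mod_cast a7
          rcases i5 with e | e | e | e
          · exact a8 e
          · exact a9 e
          · linarith
          · linarith
      push Not at ei ej
      rcases i5 with e | e | e | e
      · exact ei.1 e
      · exact ei.2 e
      · rcases j5 with e' | e' | e' | e'
        · exact ej.1 e'
        · exact ej.2 e'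
        · exact a1 (by exact_mod_cast e.symm.trans e')
        · exact a2 (by exact_mod_cast e.symm.trans e')
      · rcases j5 with e' | e' | e' | e'
        · exact ej.1 e'
        · exact ej.2 e'
        · exact a3 (by exact_mod_cast e.symm.trans e')
        · exact a4 (by exact_mod_cast e.symm.trans e')
    · obtain ⟨α, hα⟩ : ∃ α : Bool, y = (1 - s) * D.W i α t + s * D.W i α (t + 1) := by
        rcases i5 with e | e | e | e
        · exact absurd e (hxm _)
        · exact absurd e (hxm _)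
        · exact ⟨false, by rw [e, hpl]; rfl⟩
        · exact ⟨true, by rw [e, hpl]; rfl⟩
      obtain ⟨β, hβ⟩ : ∃ β : Bool, y = (1 - s) * D.W j β t + s * D.W j β (t + 1) := by
        rcases j5 with e | e | e | e
        · exact absurd e (hxm _)
        · exact absurd e (hxm _)
        · exact ⟨false, by rw [e, hpl]; rfl⟩
        · exact ⟨true, by rw [e, hpl]; rfl⟩
      have n0 := h.W_ne hi hj hij li (by omega) lj (by omega) α β
      have n1 := h.W_ne hi hj hij (t := t + 1) (by omega) ri (by omega) rj α β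
      have hc : D.cross i j (t, α, β) = true := by
        simp only [cross, Bool.and_eq_true, decide_eq_true_eq, bne_iff_ne, ne_eq,
          decide_eq_decide]
        refine ⟨⟨⟨⟨li, ri⟩, lj⟩, rj⟩, fun hiff => ?_⟩
        by_cases hlt : D.W i α t < D.W j β t
        · have := comb_lt hs0 hs1 hlt (hiff.1 hlt)
          linarith
        · have hlt' : ¬ D.W i α (t + 1) < D.W j β (t + 1) := fun hc => hlt (hiff.2 hc)
          have := comb_lt hs0 hs1 (show D.W j β t < D.W i α t by omega)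
            (show D.W j β (t + 1) < D.W i α (t + 1) by omega)
          linarith
      simp only [Finset.mem_coe, List.mem_toFinset, List.mem_map, List.mem_filter]
      refine ⟨(t, α, β), ⟨mem_cands (by omega) α β, hc⟩, ?_⟩
      have n0' : (D.W j β t : ℝ) - D.W i α t ≠ 0 := by
        rw [sub_ne_zero]; exact_mod_cast n0.symm
      have key : s * (((D.W i α (t + 1) : ℝ) - D.W i α t) - ((D.W j β (t + 1) : ℝ) - D.W j β t)) =
          (D.W j β t : ℝ) - D.W i α t := by linarith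
      have hne : ((D.W i α (t + 1) : ℝ) - D.W i α t) - ((D.W j β (t + 1) : ℝ) - D.W j β t) ≠ 0 := by
        intro h0
        rw [h0, mul_zero] at key
        exact n0' key.symm
      have hs : ((D.W j β t : ℝ) - D.W i α t) /
          (((D.W i α (t + 1) : ℝ) - D.W i α t) - ((D.W j β (t + 1) : ℝ) - D.W j β t)) = s := by
        rw [div_eq_iff hne, key]
      simp only [pt, hs]
      rw [← hx, ← hα]
  refine (encard_le_encard hsub).trans ?_
  rw [encard_coe_eq_coe_finsetCard]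
  have h2 : (((cands D.T).filter (D.cross i j)).map (D.pt i j)).length ≤ 2 := by
    rw [List.length_map]; exact h.crs i hi j hj hij
  have := (List.toFinset_card_le (((cands D.T).filter (D.cross i j)).map (D.pt i j))).trans h2
  exact_mod_cast this

lemma Good.diff_connected (h : D.Good) {i j : ℕ} (hi : i < D.n) (hj : j < D.n) (hij : i ≠ j) :
    IsConnected (D.F i \ D.F j) := by
  refine ⟨h.diff_nonempty hi hj hij, ?_⟩
  obtain ⟨v, hv1, hv2⟩ := h.exists_inner hi hj hij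
  exact strip_diff_preconnected (pl_continuous _ _) (pl_continuous _ _)
    (jordan_diff_preconnected (h.isDisk hi).jordan
      (strip_isClosed (pl_continuous _ _) (pl_continuous _ _)) (h.frontier_inter hi hj hij) hv1 hv2)

lemma Good.point_cell (h : D.Good) (p : ℝ × ℝ) :
    ∃ k < D.m, ∀ j < D.n, p ∈ D.F j → (D.C k).testBit j = true := by
  classical
  obtain ⟨x, y⟩ := p
  let S : Finset ℕ := (Finset.range D.n).filter fun j => (x, y) ∈ D.F j
  rcases S.eq_empty_or_nonempty with hS | hS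
  · refine ⟨0, h.mpos, fun j hj hp => ?_⟩
    have : j ∈ S := Finset.mem_filter.2 ⟨Finset.mem_range.2 hj, hp⟩
    rw [hS] at this
    exact absurd this (Finset.notMem_empty _)
  obtain ⟨i, hiS, hmax⟩ := S.exists_max_image (fun j => pl (D.A j) D.T x) hS
  obtain ⟨hi, i1, i2, i3, i4⟩ := Finset.mem_filter.1 hiS
  rw [Finset.mem_range] at hi
  simp only at i1 i2 i3 i4
  have hT : (D.r i : ℝ) ≤ D.T := by exact_mod_cast (h.lr i hi).2
  obtain ⟨t, d, s, hd, htd, hs0, hs1, hpl, hl, hr, -⟩ :=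
    locate (T := D.T) ((Nat.cast_nonneg _).trans i1) (i2.trans hT)
  obtain ⟨k, hk, hk'⟩ := h.cell i hi t d hd (hl _ i1) (hr _ i2)
  refine ⟨k, hk, fun j hj hp => ?_⟩
  have hm := hmax j (Finset.mem_filter.2 ⟨Finset.mem_range.2 hj, hp⟩)
  obtain ⟨j1, j2, j3, j4⟩ := hp
  simp only at j1 j2 j3 j4
  refine hk' j hj (hl _ j1) (hr _ j2) (fun hc => ?_) (fun hc => ?_)
  · have := comb_lt hs0 hs1 hc.1 hc.2
    rw [hpl, hpl] at hm
    linarith
  · have := comb_lt hs0 hs1 hc.1 hc.2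
    rw [hpl] at i3 j4
    linarith

theorem Good.main (h : D.Good) :
    ∃ 𝓕 : Set (Set (ℝ × ℝ)), 𝓕.Finite ∧ IsPseudoDiskFamily 𝓕 ∧ IsNonPiercingFamily 𝓕 ∧
      PairwiseIntersecting 𝓕 ∧ ∀ P : Set (ℝ × ℝ), Pierces P 𝓕 → 5 ≤ P.encard := by
  classical
  refine ⟨D.F '' Iio D.n, (finite_Iio _).image _, ⟨?_, ?_⟩, ⟨?_, ?_⟩, ?_, ?_⟩
  · rintro _ ⟨i, hi, rfl⟩
    exact ⟨(h.isDisk hi).region, (h.isDisk hi).simply⟩
  · rintro _ ⟨i, hi, rfl⟩ _ ⟨j, hj, rfl⟩ hne
    exact h.frontier_inter hi hj fun e => hne (by rw [e])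
  · rintro _ ⟨i, hi, rfl⟩
    exact (h.isDisk hi).region
  · rintro _ ⟨i, hi, rfl⟩ _ ⟨j, hj, rfl⟩ hne
    have hij : i ≠ j := fun e => hne (by rw [e])
    exact ⟨finite_of_encard_le_coe (k := 2) (h.frontier_inter hi hj hij),
      h.diff_connected hi hj hij⟩
  · rintro _ ⟨i, hi, rfl⟩ _ ⟨j, hj, rfl⟩
    exact h.inter hi hj
  · intro P hP
    by_contra hlt
    have hle : P.encard ≤ (4 : ℕ) := by
      have : P.encard < 4 + 1 := by
        rw [not_le] at hlt
        exact hlt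
      exact Order.le_of_lt_add_one this
    have hfin : P.Finite := finite_of_encard_le_coe hle
    choose κ hκ hκ' using h.point_cell
    have hcard : hfin.toFinset.card ≤ 4 := by
      rw [hfin.encard_eq_coe_toFinset_card] at hle
      exact_mod_cast hle
    obtain ⟨j, hj, hj'⟩ := h.nocover (hfin.toFinset.image κ)
      (fun k hk => by
        obtain ⟨p, -, rfl⟩ := Finset.mem_image.1 hk
        exact hκ p)
      (Finset.card_image_le.trans hcard)
    obtain ⟨p, hp1, hp2⟩ := hP _ ⟨j, hj, rfl⟩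
    have h1 := hκ' p j hj hp2
    rw [hj' _ (Finset.mem_image_of_mem κ (hfin.mem_toFinset.2 hp1))] at h1
    exact absurd h1 (by decide)

end Data

/-- search for a cover of the list `U` by `k` cells -/
def noCover (C : ℕ → ℕ) (m : ℕ) : ℕ → List ℕ → Bool
  | 0, U => !U.isEmpty
  | _ + 1, [] => false
  | k + 1, e :: U => (List.range m).all fun c =>
      !(C c).testBit e || noCover C m k (U.filter fun j => !(C c).testBit j)

lemma noCover_sound (C : ℕ → ℕ) (m : ℕ) : ∀ (k : ℕ) (U : List ℕ), noCover C m k U = true →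
    ∀ S : Finset ℕ, (∀ c ∈ S, c < m) → S.card ≤ k →
      ∃ j ∈ U, ∀ c ∈ S, (C c).testBit j = false := by
  intro k
  induction k with
  | zero =>
    intro U hU S _ hS
    have : S = ∅ := Finset.card_eq_zero.1 (by omega)
    subst this
    cases U with
    | nil => simp [noCover] at hU
    | cons e U => exact ⟨e, by simp, by simp⟩
  | succ k ih =>
    intro U hU S hm hS
    cases U with
    | nil => simp [noCover] at hU
    | cons e U =>
      by_cases he : ∀ c ∈ S, (C c).testBit e = false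
      · exact ⟨e, by simp, he⟩
      push Not at he
      obtain ⟨c, hc, hce⟩ := he
      simp only [noCover, List.all_eq_true, List.mem_range, Bool.or_eq_true,
        Bool.not_eq_true'] at hU
      rcases hU c (hm c hc) with h1 | h1
      · exact absurd h1 hce
      obtain ⟨j, hj, hj'⟩ := ih _ h1 (S.erase c) (fun x hx => hm x (Finset.mem_of_mem_erase hx))
        (by rw [Finset.card_erase_of_mem hc]; omega)
      rw [List.mem_filter] at hj
      refine ⟨j, List.mem_cons_of_mem _ hj.1, fun x hx => ?_⟩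
      by_cases hxc : x = c
      · subst hxc
        simpa using hj.2
      · exact hj' x (Finset.mem_erase.2 ⟨hxc, hx⟩)

end Pool.Agent.H98Z.PD
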