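import Pool.Agent.H98Z.PD.Defs

namespace Pool.Agent.H98Z.PD

open Set Metric Topology Real

/-- a closed topological disk -/
def IsDisk (F : Set (ℝ × ℝ)) : Prop :=
  ∃ h : ℂ ≃ₜ ℝ × ℝ, F = h '' closedBall 0 1

lemma IsDisk.jordan {F : Set (ℝ × ℝ)} (hF : IsDisk F) : IsJordanCurve (frontier F) := by
  obtain ⟨h, rfl⟩ := hF
  refine ⟨fun z => h (z : ℂ), h.continuous.comp continuous_subtype_val,
    h.injective.comp Circle.coe_injective, ?_⟩
  rw [← h.image_frontier, frontier_closedBall _ one_ne_zero]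
  ext p
  constructor
  · rintro ⟨z, rfl⟩
    exact ⟨z, z.2, rfl⟩
  · rintro ⟨z, hz, rfl⟩
    exact ⟨⟨z, hz⟩, rfl⟩

lemma IsDisk.simply {F : Set (ℝ × ℝ)} (hF : IsDisk F) : IsSimplyConnected F := by
  obtain ⟨h, rfl⟩ := hF
  rw [h.isSimplyConnected_image]
  have : ContractibleSpace (closedBall (0 : ℂ) 1) :=
    (convex_closedBall (0 : ℂ) 1).contractibleSpace (nonempty_closedBall.2 zero_le_one)
  exact SimplyConnectedSpace.ofContractible _

lemma IsDisk.region {F : Set (ℝ × ℝ)} (hF : IsDisk F) : IsRegion F := by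
  have hJ := hF.jordan
  have hS := hF.simply
  obtain ⟨h, rfl⟩ := hF
  refine ⟨hS.isPathConnected.isConnected, (isCompact_closedBall _ _).image h.continuous, ?_,
    {frontier (h '' closedBall 0 1)}, finite_singleton _, ?_, pairwiseDisjoint_singleton _ _, ?_⟩
  · rw [← h.image_interior, ← h.image_closure, interior_closedBall _ one_ne_zero,
      closure_ball _ one_ne_zero]
  · intro C hC
    rw [mem_singleton_iff.1 hC]
    exact hJ
  · rw [sUnion_singleton]

/-- On an interval whose ends lie in two disjoint open sets there is a point outside both. -/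
lemma exists_between_not {U V : Set ℝ} (hU : IsOpen U) (hV : IsOpen V) (hd : Disjoint U V)
    {a b : ℝ} (hab : a ≤ b) (ha : a ∈ U) (hb : b ∈ V) :
    ∃ c, a < c ∧ c < b ∧ c ∉ U ∧ c ∉ V := by
  by_contra hcon
  push Not at hcon
  have hsub : Icc a b ⊆ U ∪ V := by
    intro c hc
    rcases eq_or_lt_of_le hc.1 with h | h
    · exact Or.inl (h ▸ ha)
    rcases eq_or_lt_of_le hc.2 with h' | h'
    · exact Or.inr (h' ▸ hb)
    by_cases hcU : c ∈ U
    · exact Or.inl hcU
    · exact Or.inr (hcon c h h' hcU)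
  have := isPreconnected_Icc.subset_left_of_subset_union hU hV hd hsub
    ⟨a, left_mem_Icc.2 hab, ha⟩
  exact disjoint_left.1 hd (this (right_mem_Icc.2 hab)) hb

lemma jordan_diff_preconnected {C G : Set (ℝ × ℝ)} (hC : IsJordanCurve C) (hG : IsClosed G)
    (h2 : (C ∩ frontier G).encard ≤ 2) {v : ℝ × ℝ} (hvC : v ∈ C) (hvG : v ∈ interior G) :
    IsPreconnected (C \ G) := by
  obtain ⟨γ, hγc, hγi, rfl⟩ := hC
  obtain ⟨w, rfl⟩ := hvC
  set θ : ℝ := Complex.arg w with hθ
  let g : ℝ → ℝ × ℝ := fun s => γ (Circle.exp s)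
  have hgc : Continuous g := hγc.comp Circle.exp.continuous
  have hg0 : g θ = γ w := by simp only [g, hθ, Circle.exp_arg]
  have hg1 : g (θ + 2 * π) = γ w := by simp only [g, Circle.exp_add_two_pi, hθ, Circle.exp_arg]
  have hinj : InjOn g (Ico θ (θ + 2 * π)) := fun x hx y hy hxy =>
    Circle.exp_injOn_Ico (by linarith) hx hy (hγi hxy)
  let U : Set ℝ := g ⁻¹' Gᶜ
  let V : Set ℝ := g ⁻¹' interior G
  have hU : IsOpen U := hG.isOpen_compl.preimage hgc
  have hV : IsOpen V := isOpen_interior.preimage hgc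
  have hd : Disjoint U V := by
    rw [disjoint_left]
    intro s hs hs'
    exact hs (interior_subset hs')
  have hfr : ∀ s, s ∉ U → s ∉ V → g s ∈ range γ ∩ frontier G := by
    intro s hs hs'
    refine ⟨⟨_, rfl⟩, ?_⟩
    rw [hG.frontier_eq]
    exact ⟨by simpa [U] using hs, hs'⟩
  have hθV : θ ∈ V := by simpa only [V, mem_preimage, hg0] using hvG
  have hθV' : θ + 2 * π ∈ V := by simpa only [V, mem_preimage, hg1] using hvG
  have key : (U ∩ Ioo θ (θ + 2 * π)).OrdConnected := by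
    refine ⟨fun s1 hs1 s2 hs2 s hs => ⟨?_, hs1.2.1.trans_le hs.1, hs.2.trans_lt hs2.2.2⟩⟩
    by_contra hsU
    obtain ⟨c1, hc1, hc1', hc1V, hc1U⟩ :=
      exists_between_not hV hU hd.symm hs1.2.1.le hθV hs1.1
    obtain ⟨c3, hc3, hc3', hc3U, hc3V⟩ :=
      exists_between_not hU hV hd hs2.2.2.le hs2.1 hθV'
    obtain ⟨c2, hc2, hc2', hc2U, hc2V⟩ : ∃ c, s1 ≤ c ∧ c ≤ s2 ∧ c ∉ U ∧ c ∉ V := by
      by_cases hsV : s ∈ V
      · obtain ⟨c, h1, h2, h3, h4⟩ := exists_between_not hU hV hd hs.1 hs1.1 hsV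
        exact ⟨c, h1.le, h2.le.trans hs.2, h3, h4⟩
      · exact ⟨s, hs.1, hs.2, hsU, hsV⟩
    have m1 : c1 ∈ Ico θ (θ + 2 * π) := ⟨hc1.le, by linarith [hs1.2.2]⟩
    have m2 : c2 ∈ Ico θ (θ + 2 * π) := ⟨by linarith, by linarith⟩
    have m3 : c3 ∈ Ico θ (θ + 2 * π) := ⟨by linarith, hc3'⟩
    have n12 : g c1 ≠ g c2 := fun h => by have := hinj m1 m2 h; linarith
    have n13 : g c1 ≠ g c3 := fun h => by have := hinj m1 m3 h; linarith
    have n23 : g c2 ≠ g c3 := fun h => by have := hinj m2 m3 h; linarith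
    have hsub : ({g c1, g c2, g c3} : Set (ℝ × ℝ)) ⊆ range γ ∩ frontier G := by
      intro p hp
      rcases hp with rfl | rfl | rfl
      · exact hfr _ hc1U hc1V
      · exact hfr _ hc2U hc2V
      · exact hfr _ hc3U hc3V
    have h3 : ({g c1, g c2, g c3} : Set (ℝ × ℝ)).encard = 3 := by
      rw [encard_insert_of_notMem (by simp [n12, n13]), encard_pair n23]
      rfl
    have := (encard_le_encard hsub).trans h2
    rw [h3] at this
    exact absurd this (by decide)
  have himg : range γ \ G = g '' (U ∩ Ioo θ (θ + 2 * π)) := by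
    ext p
    constructor
    · rintro ⟨⟨z, rfl⟩, hz⟩
      have hsurj : ∃ s ∈ Ico θ (θ + 2 * π), Circle.exp s = z := by
        have hp : (0 : ℝ) < 2 * π := by positivity
        obtain ⟨y, hy, hy'⟩ := Circle.periodic_exp.exists_mem_Ico hp (Complex.arg z) θ
        exact ⟨y, hy, by rw [← hy', Circle.exp_arg]⟩
      obtain ⟨s, hs, rfl⟩ := hsurj
      refine ⟨s, ⟨hz, lt_of_le_of_ne hs.1 ?_, hs.2⟩, rfl⟩
      rintro rfl
      exact hz (interior_subset hθV)
    · rintro ⟨s, ⟨hs, -⟩, rfl⟩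
      exact ⟨⟨_, rfl⟩, hs⟩
  rw [himg]
  exact key.isPreconnected.image g hgc.continuousOn

/-- the region between two graphs over an interval -/
def strip (l r : ℝ) (a b : ℝ → ℝ) : Set (ℝ × ℝ) :=
  {p | l ≤ p.1 ∧ p.1 ≤ r ∧ a p.1 ≤ p.2 ∧ p.2 ≤ b p.1}

lemma strip_isClosed {l r : ℝ} {a b : ℝ → ℝ} (ha : Continuous a) (hb : Continuous b) :
    IsClosed (strip l r a b) := by
  refine (isClosed_le continuous_const continuous_fst).inter
    ((isClosed_le continuous_fst continuous_const).inter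
      ((isClosed_le (ha.comp continuous_fst) continuous_snd).inter
        (isClosed_le continuous_snd (hb.comp continuous_fst))))

lemma strip_isDisk' {l r : ℝ} {a b : ℝ → ℝ} (ha : Continuous a) (hb : Continuous b)
    (hlr : l < r) (hab : ∀ x, a x < b x) : IsDisk (strip l r a b) := by
  have hne : ∀ x, b x - a x ≠ 0 := fun x => (sub_pos.2 (hab x)).ne'
  let k : (ℝ × ℝ) ≃ₜ (ℝ × ℝ) :=
    { toFun := fun p => (p.1, a p.1 + p.2 * (b p.1 - a p.1))
      invFun := fun p => (p.1, (p.2 - a p.1) / (b p.1 - a p.1))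
      left_inv := fun p => by
        have := hne p.1
        ext
        · rfl
        · simp only
          field_simp
          ring
      right_inv := fun p => by
        have := hne p.1
        ext
        · rfl
        · simp only
          field_simp
          ring
      continuous_toFun := by fun_prop
      continuous_invFun := by
        refine continuous_fst.prodMk (Continuous.div (by fun_prop) (by fun_prop) fun p => hne p.1) }
  let R : Set ℂ := Complex.equivRealProdCLM ⁻¹' (Icc l r ×ˢ Icc (0 : ℝ) 1)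
  have hRc : Convex ℝ R :=
    ((convex_Icc l r).prod (convex_Icc 0 1)).linear_preimage
      (Complex.equivRealProdCLM : ℂ →L[ℝ] ℝ × ℝ).toLinearMap
  have hRcomp : IsCompact R :=
    Complex.equivRealProdCLM.toHomeomorph.isCompact_preimage.2 (isCompact_Icc.prod isCompact_Icc)
  have hRi : (interior R).Nonempty := by
    have : interior R = Complex.equivRealProdCLM ⁻¹' interior (Icc l r ×ˢ Icc (0 : ℝ) 1) :=
      (Complex.equivRealProdCLM.toHomeomorph.preimage_interior _).symm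
    rw [this, interior_prod_eq, interior_Icc, interior_Icc]
    refine ⟨⟨(l + r) / 2, 1 / 2⟩, ?_⟩
    simp only [mem_preimage, Complex.equivRealProdCLM_apply, mem_prod, mem_Ioo]
    refine ⟨⟨by linarith, by linarith⟩, by norm_num, by norm_num⟩
  obtain ⟨h, -, h2, -⟩ := exists_homeomorph_image_interior_closure_frontier_eq_unitBall hRc hRi
    hRcomp.isBounded
  rw [hRcomp.isClosed.closure_eq] at h2
  refine ⟨(h.symm.trans Complex.equivRealProdCLM.toHomeomorph).trans k, ?_⟩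
  rw [← h2, image_image]
  ext p
  simp only [Homeomorph.trans_apply, Homeomorph.symm_apply_apply]
  constructor
  · rintro ⟨h1, h2, h3, h4⟩
    have hp := sub_pos.2 (hab p.1)
    refine ⟨⟨p.1, (p.2 - a p.1) / (b p.1 - a p.1)⟩, ⟨⟨h1, h2⟩, ?_, ?_⟩, ?_⟩
    · exact div_nonneg (sub_nonneg.2 h3) hp.le
    · exact (div_le_one hp).2 (by linarith)
    · exact k.right_inv p
  · rintro ⟨z, ⟨⟨h1, h2⟩, h3, h4⟩, rfl⟩
    have hp := sub_pos.2 (hab z.re)
    simp only [Complex.equivRealProdCLM_apply] at h1 h2 h3 h4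
    refine ⟨h1, h2, ?_, ?_⟩
    · change a z.re ≤ a z.re + z.im * (b z.re - a z.re)
      nlinarith
    · change a z.re + z.im * (b z.re - a z.re) ≤ b z.re
      nlinarith

lemma strip_isDisk {l r : ℝ} {a b : ℝ → ℝ} (ha : Continuous a) (hb : Continuous b)
    (hlr : l < r) (hab : ∀ x, l ≤ x → x ≤ r → a x < b x) : IsDisk (strip l r a b) := by
  let c : ℝ → ℝ := fun x => max l (min r x)
  have hc : Continuous c := by fun_prop
  have : strip l r a b = strip l r (a ∘ c) (b ∘ c) := by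
    ext p
    have e : l ≤ p.1 → p.1 ≤ r → c p.1 = p.1 := fun h1 h2 => by
      simp only [c]; rw [min_eq_right h2, max_eq_right h1]
    constructor
    · rintro ⟨h1, h2, h3, h4⟩
      refine ⟨h1, h2, ?_, ?_⟩ <;> simp only [Function.comp, e h1 h2] <;> assumption
    · rintro ⟨h1, h2, h3, h4⟩
      simp only [Function.comp, e h1 h2] at h3 h4
      exact ⟨h1, h2, h3, h4⟩
  rw [this]
  refine strip_isDisk' (ha.comp hc) (hb.comp hc) hlr fun x => hab _ (le_max_left _ _) ?_
  exact max_le hlr.le (min_le_left _ _)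

lemma mem_interior_strip {l r : ℝ} {a b : ℝ → ℝ} (ha : Continuous a) (hb : Continuous b)
    {p : ℝ × ℝ} (h1 : l < p.1) (h2 : p.1 < r) (h3 : a p.1 < p.2) (h4 : p.2 < b p.1) :
    p ∈ interior (strip l r a b) := by
  have ho : IsOpen {p : ℝ × ℝ | l < p.1 ∧ p.1 < r ∧ a p.1 < p.2 ∧ p.2 < b p.1} :=
    (isOpen_lt continuous_const continuous_fst).inter
      ((isOpen_lt continuous_fst continuous_const).inter
        ((isOpen_lt (ha.comp continuous_fst) continuous_snd).inter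
          (isOpen_lt continuous_snd (hb.comp continuous_fst))))
  have hs : {p : ℝ × ℝ | l < p.1 ∧ p.1 < r ∧ a p.1 < p.2 ∧ p.2 < b p.1} ⊆ strip l r a b :=
    fun q hq => ⟨hq.1.le, hq.2.1.le, hq.2.2.1.le, hq.2.2.2.le⟩
  exact interior_maximal hs ho ⟨h1, h2, h3, h4⟩

lemma frontier_strip {l r : ℝ} {a b : ℝ → ℝ} (ha : Continuous a) (hb : Continuous b)
    {p : ℝ × ℝ} (hp : p ∈ frontier (strip l r a b)) :
    p ∈ strip l r a b ∧ (p.1 = l ∨ p.1 = r ∨ p.2 = a p.1 ∨ p.2 = b p.1) := by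
  rw [(strip_isClosed ha hb).frontier_eq] at hp
  refine ⟨hp.1, ?_⟩
  by_contra hc
  push Not at hc
  obtain ⟨h1, h2, h3, h4⟩ := hp.1
  exact hp.2 (mem_interior_strip ha hb (lt_of_le_of_ne h1 (Ne.symm hc.1))
    (lt_of_le_of_ne h2 hc.2.1) (lt_of_le_of_ne h3 (Ne.symm hc.2.2.1)) (lt_of_le_of_ne h4 hc.2.2.2))

lemma lower_mem_frontier {l r : ℝ} {a b : ℝ → ℝ} (ha : Continuous a) (hb : Continuous b)
    {x : ℝ} (h1 : l ≤ x) (h2 : x ≤ r) (h3 : a x ≤ b x) :
    (x, a x) ∈ frontier (strip l r a b) := by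
  rw [(strip_isClosed ha hb).frontier_eq]
  refine ⟨⟨h1, h2, le_rfl, h3⟩, fun h => ?_⟩
  have hc : Continuous fun y : ℝ => (x, y) := by fun_prop
  have := (isOpen_interior.preimage hc).mem_nhds (x := a x) h
  obtain ⟨y, hy, hy'⟩ := (mem_nhds_iff_exists_Ioo_subset.1 this)
  obtain ⟨⟨h4, h5⟩, h6⟩ := hy'
  have : (x, (y + a x) / 2) ∈ strip l r a b :=
    interior_subset (h6 (show (y + a x) / 2 ∈ Ioo y hy from ⟨by linarith, by linarith⟩))
  have := this.2.2.1
  simp only at this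
  linarith

lemma upper_mem_frontier {l r : ℝ} {a b : ℝ → ℝ} (ha : Continuous a) (hb : Continuous b)
    {x : ℝ} (h1 : l ≤ x) (h2 : x ≤ r) (h3 : a x ≤ b x) :
    (x, b x) ∈ frontier (strip l r a b) := by
  rw [(strip_isClosed ha hb).frontier_eq]
  refine ⟨⟨h1, h2, h3, le_rfl⟩, fun h => ?_⟩
  have hc : Continuous fun y : ℝ => (x, y) := by fun_prop
  have := (isOpen_interior.preimage hc).mem_nhds (x := b x) h
  obtain ⟨y, hy, hy'⟩ := (mem_nhds_iff_exists_Ioo_subset.1 this)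
  obtain ⟨⟨h4, h5⟩, h6⟩ := hy'
  have : (x, (hy + b x) / 2) ∈ strip l r a b :=
    interior_subset (h6 (show (hy + b x) / 2 ∈ Ioo y hy from ⟨by linarith, by linarith⟩))
  have := this.2.2.2
  simp only at this
  linarith

lemma strip_diff_preconnected {l r l' r' : ℝ} {a b a' b' : ℝ → ℝ} (ha : Continuous a)
    (hb : Continuous b)
    (hpre : IsPreconnected (frontier (strip l r a b) \ strip l' r' a' b')) :
    IsPreconnected (strip l r a b \ strip l' r' a' b') := by
  set F := strip l r a b with hF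
  set G := strip l' r' a' b' with hG
  have hfs : frontier F ⊆ F := (strip_isClosed ha hb).frontier_subset
  have seg : ∀ p ∈ F \ G, ∃ t ⊆ F \ G, p ∈ t ∧ IsPreconnected t ∧
      (t ∩ (frontier F \ G)).Nonempty := by
    rintro ⟨x, y⟩ ⟨⟨h1, h2, h3, h4⟩, hn⟩
    simp only at h1 h2 h3 h4
    have hc : Continuous fun y : ℝ => (x, y) := by fun_prop
    by_cases hup : l' ≤ x ∧ x ≤ r' ∧ a' x ≤ y
    · have hy : b' x < y := by
        by_contra hcon
        exact hn ⟨hup.1, hup.2.1, hup.2.2, not_lt.1 hcon⟩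
      have hsub : (fun y : ℝ => (x, y)) '' Icc y (b x) ⊆ F \ G := by
        rintro _ ⟨z, hz, rfl⟩
        refine ⟨⟨h1, h2, h3.trans hz.1, hz.2⟩, fun h => ?_⟩
        have := h.2.2.2
        simp only at this
        linarith [hz.1]
      refine ⟨_, hsub, ⟨y, ⟨le_rfl, h4⟩, rfl⟩, isPreconnected_Icc.image _ hc.continuousOn,
        (x, b x), ⟨b x, ⟨h4, le_rfl⟩, rfl⟩, upper_mem_frontier ha hb h1 h2 (h3.trans h4), ?_⟩
      exact (hsub ⟨b x, ⟨h4, le_rfl⟩, rfl⟩).2
    · have hsub : (fun y : ℝ => (x, y)) '' Icc (a x) y ⊆ F \ G := by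
        rintro _ ⟨z, hz, rfl⟩
        refine ⟨⟨h1, h2, hz.1, hz.2.trans h4⟩, fun h => hup ⟨h.1, h.2.1, ?_⟩⟩
        exact h.2.2.1.trans hz.2
      refine ⟨_, hsub, ⟨y, ⟨h3, le_rfl⟩, rfl⟩, isPreconnected_Icc.image _ hc.continuousOn,
        (x, a x), ⟨a x, ⟨le_rfl, h3⟩, rfl⟩, lower_mem_frontier ha hb h1 h2 (h3.trans h4), ?_⟩
      exact (hsub ⟨a x, ⟨le_rfl, h3⟩, rfl⟩).2
  refine isPreconnected_of_forall_pair fun p hp q hq => ?_
  obtain ⟨t, ht, hpt, htc, htn⟩ := seg p hp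
  obtain ⟨u, hu, hqu, huc, hun⟩ := seg q hq
  refine ⟨(t ∪ (frontier F \ G)) ∪ u, ?_, Or.inl (Or.inl hpt), Or.inr hqu, ?_⟩
  · exact union_subset (union_subset ht (fun z hz => ⟨hfs hz.1, hz.2⟩)) hu
  · refine (htc.union' htn hpre).union' ?_ huc
    obtain ⟨z, hz1, hz2⟩ := hun
    exact ⟨z, Or.inr hz2, hz1⟩

end Pool.Agent.H98Z.PD
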